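import Mathlib

set_option autoImplicit false

namespace Pool.Agent.Results.MP_bd8ab5_nt.Decide

open Primrec

def r (N b j u : ℤ) : ℤ := 3 * (N * u / b) + if N * u % b = 0 then 0 else j

lemma r_cmp (N b j u z : ℤ) (hb : 0 < b) (h1 : 0 < j) (h2 : j < 3) :
    (N * u ≤ b * z ↔ r N b j u ≤ 3 * z) ∧ (N * u < b * z ↔ r N b j u < 3 * z) := by
  have e := Int.mul_ediv_add_emod (N * u) b
  have e1 := Int.emod_nonneg (N * u) hb.ne'
  have e2 := Int.emod_lt_of_pos (N * u) hb
  unfold r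
  generalize N * u / b = q at *
  generalize N * u % b = m at *
  rw [← e]
  rcases lt_trichotomy q z with h | rfl | h
  · have : b * (q + 1) ≤ b * z := mul_le_mul_of_nonneg_left h hb.le
    split_ifs <;> refine ⟨iff_of_true ?_ ?_, iff_of_true ?_ ?_⟩ <;> linarith
  · split_ifs <;> omega
  · have : b * (z + 1) ≤ b * q := mul_le_mul_of_nonneg_left h hb.le
    split_ifs <;> refine ⟨iff_of_false ?_ ?_, iff_of_false ?_ ?_⟩ <;> intro _ <;> linarith

lemma r_frac (K : ℕ) (b j u p : ℤ) (q : ℕ) (hb : 0 < b) (h1 : 0 < j) (h2 : j < 3) (hq : 0 < q)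
    (hK : q ≤ K) : (u * q ≤ b * p ↔ r K.factorial b j u * q ≤ 3 * K.factorial * p) ∧
      (u * q < b * p ↔ r K.factorial b j u * q < 3 * K.factorial * p) := by
  obtain ⟨w, hw⟩ := Nat.dvd_factorial hq hK
  have h0 : (0 : ℤ) < w := by have := K.factorial_pos; rw [hw] at this; exact_mod_cast Nat.pos_of_mul_pos_left this
  have h3 : (0 : ℤ) < q := by exact_mod_cast hq
  obtain ⟨a1, a2⟩ := r_cmp K.factorial b j u (w * p) hb h1 h2
  generalize r K.factorial b j u = R at *
  rw [hw] at *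
  push_cast at *
  rw [show 3 * ((q : ℤ) * w) * p = 3 * (w * p) * q by ring, mul_le_mul_iff_left₀ h3,
    mul_lt_mul_iff_left₀ h3, ← a1, ← a2, show (q : ℤ) * w * u = u * q * w by ring,
    show b * (w * p) = b * p * w by ring, mul_le_mul_iff_left₀ h0, mul_lt_mul_iff_left₀ h0]
  exact ⟨Iff.rfl, Iff.rfl⟩

lemma red (a b c d x : ℕ) (hb : b ≠ 0) :
    a * x % b + d ≤ c * x ↔ ((a : ℤ) - c) * x + d ≤ b * (a * x / b : ℕ) := by
  have := Nat.div_add_mod (a * x) b
  zify at this ⊢
  constructor <;> intro h <;> linarith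

lemma bound (K a b c d : ℕ) (hb : b ≠ 0) (hc : c ≠ 0) (ha : a < b)
    (hne : ∃ x, 0 < x ∧ x < K ∧ a * x % b + d ≤ c * x) :
    ∃ a' b' c' d' : ℕ, (a' ≤ b' ∧ b' = 3 * K.factorial ∧ c' ≤ b' * (K + 2) ∧
      d' ≤ b' * (K + 2) * K) ∧ c' ≠ 0 ∧
      ∀ x < K, 0 < x → (a * x % b + d ≤ c * x ↔ a' * x % b' + d' ≤ c' * x) := by
  have hb0 : (0 : ℤ) < b := by positivity
  have hN : (0 : ℤ) < K.factorial := by exact_mod_cast K.factorial_pos
  obtain ⟨x0, hx0, hx1, hx2⟩ := hne
  have F2 := fun p q => r_frac K b 2 a p q hb0 (by norm_num) (by norm_num)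
  have F1 := fun p q => r_frac K b 1 (a - c) p q hb0 (by norm_num) (by norm_num)
  have hlt : r K.factorial b 1 (a - c) < r K.factorial b 2 a := by
    have h1 : (K.factorial : ℤ) * (a - c) < K.factorial * a :=
      mul_lt_mul_of_pos_left (by omega) hN
    have h2 := Int.ediv_le_ediv hb0 h1.le
    have e := Int.mul_ediv_add_emod (K.factorial * a) b
    have e' := Int.mul_ediv_add_emod (K.factorial * (a - c)) b
    have e1 := Int.emod_nonneg (K.factorial * (a - c)) hb0.ne'
    unfold r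
    rcases h2.lt_or_eq with h | h
    · split_ifs <;> omega
    · rw [h] at e' ⊢
      split_ifs <;> linarith
  generalize r K.factorial b 2 a = A at *
  generalize r K.factorial b 1 (a - c) = L0 at *
  generalize hB : 3 * K.factorial = B
  have hB' : (3 : ℤ) * K.factorial = B := by exact_mod_cast hB
  simp only [hB'] at F1 F2
  have hB0 : (0 : ℤ) < B := by omega
  have hA0 : 0 ≤ A := by
    have := (F2 0 1 one_pos (by omega)).2
    simp only [Nat.cast_one, mul_one, mul_zero] at this; omega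
  have hA1 : A < B := by
    have := (F2 1 1 one_pos (by omega)).2
    simp only [Nat.cast_one, mul_one] at this; omega
  obtain ⟨a', rfl⟩ := Int.eq_ofNat_of_zero_le hA0
  have hk : ∀ x < K, 0 < x → a' * x / B = a * x / b ∧ a * x / b ≤ K := fun x hx h0 => by
    have h1 := Nat.div_mul_le_self (a * x) b
    have h2 := Nat.lt_div_mul_add (a := a * x) (Nat.pos_of_ne_zero hb)
    have h3 := (F2 (a * x / b : ℕ) x h0 hx.le).2
    have h4 := (F2 ((a * x / b : ℕ) + 1) x h0 hx.le).2
    generalize a * x / b = k at *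
    refine ⟨Nat.div_eq_of_lt_le ?_ ?_, ?_⟩
    · zify at *; by_contra h; linarith [h3.mpr (by linarith)]
    · zify at *; linarith [h4.mp (by linarith)]
    · by_contra h; nlinarith
  let L : ℤ := max L0 (-(K + 1) * B)
  have hL0 : L0 ≤ L := le_max_left _ _
  have hL1 : -(K + 1) * B ≤ L := le_max_right _ _
  have hL2 : L = L0 ∨ L = -(K + 1) * B := max_choice _ _
  have hKB : (0 : ℤ) ≤ K * B := by positivity
  have hLA : L < a' := by rcases hL2 with h | h <;> rw [h] <;> nlinarith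
  classical
  obtain ⟨m, hm, hmin⟩ := Finset.exists_min_image ((Finset.range K).filter fun x =>
    0 < x ∧ a * x % b + d ≤ c * x) (fun x => (B : ℤ) * (a * x / b : ℕ) - L * x) ⟨x0, by simp [*]⟩
  simp only [Finset.mem_filter, Finset.mem_range, and_imp] at hm hmin
  have hm3 := (red a b c d m hb).mp hm.2.2
  have hmK : (m : ℤ) < K := by exact_mod_cast hm.1
  have hm0 : (0 : ℤ) < m := by exact_mod_cast hm.2.1
  have hkm : ((a * m / b : ℕ) : ℤ) ≤ K := by exact_mod_cast (hk m hm.1 hm.2.1).2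
  have hkm0 : (0 : ℤ) ≤ (a * m / b : ℕ) := by positivity
  have hD0 : 0 ≤ (B : ℤ) * (a * m / b : ℕ) - L * m := by
    rcases hL2 with h | h <;> rw [h]
    · linarith [(F1 (a * m / b : ℕ) m hm.2.1 hm.1.le).1.mp (by linarith)]
    · nlinarith [mul_nonneg hB0.le hkm0, mul_pos hB0 hm0]
  obtain ⟨d', hd'⟩ := Int.eq_ofNat_of_zero_le hD0
  obtain ⟨c', hc'⟩ := Int.eq_ofNat_of_zero_le (show 0 ≤ a' - L by omega)
  refine ⟨a', B, c', d', ⟨by omega, rfl, by zify; nlinarith, ?_⟩, by omega, fun x hx h0 => ?_⟩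
  · zify
    nlinarith [mul_le_mul_of_nonneg_left hkm hB0.le, mul_le_mul_of_nonneg_right hL1 hm0.le,
      mul_le_mul_of_nonneg_left hmK.le (show (0 : ℤ) ≤ (K + 1) * B by positivity)]
  · rw [red a' B c' d' x (by omega), (hk x hx h0).1, ← hd', ← hc']
    refine ⟨fun h => by linarith [hmin x hx h0 h], fun h => ?_⟩
    rw [red a b c d x hb]
    by_contra hn
    have hmx : m ≠ x := by rintro rfl; exact hn hm3
    have hkx : ((a * x / b : ℕ) : ℤ) ≤ K := by exact_mod_cast (hk x hx h0).2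
    have hkx0 : (0 : ℤ) ≤ (a * x / b : ℕ) := by positivity
    generalize ((a * x / b : ℕ) : ℤ) = kx at *
    generalize ((a * m / b : ℕ) : ℤ) = km at *
    rcases lt_or_gt_of_ne hmx with h1 | h1
    · obtain ⟨q, rfl⟩ := Nat.exists_eq_add_of_lt h1
      have := (F1 (kx - km) (q + 1) (by omega) (by omega)).1
      push_cast at *
      have h5 : L0 * (q + 1) ≤ L * (q + 1) := mul_le_mul_of_nonneg_right hL0 (by positivity)
      linarith [this.mpr (by linarith)]
    · obtain ⟨q, rfl⟩ := Nat.exists_eq_add_of_lt h1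
      have := (F1 (km - kx) (q + 1) (by omega) (by omega)).2
      push_cast at *
      rcases hL2 with h2 | h2 <;> rw [h2] at h
      · linarith [this.mp (by linarith)]
      · nlinarith [mul_le_mul_of_nonneg_left hkx hB0.le, mul_nonneg hB0.le hkm0,
          mul_nonneg (show (0 : ℤ) ≤ (K + 1) * B by positivity) (show (0 : ℤ) ≤ q by positivity)]

def In (a b c d x : ℕ) : Prop := x = 0 ∨ a * x % b + d ≤ c * x

def R (t : ℕ) (l : List ℕ) : Prop := ¬ t.unpair.1.unpair.2 = 0 ∧ ¬ t.unpair.2.unpair.1 = 0 ∧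
  ∀ x < 2 * l.sum + 2, (x ∉ l ↔
    In t.unpair.1.unpair.1 t.unpair.1.unpair.2 t.unpair.2.unpair.1 t.unpair.2.unpair.2 x)

def W (K : ℕ) : ℕ := ((3 * K ^ K * (K + 2) * K + 1) ^ 2 + 1) ^ 2

lemma ext (a b c d : ℕ) (l : List ℕ) (h : ∀ x < 2 * l.sum + 2, (x ∉ l ↔ In a b c d x)) (x : ℕ) :
    x ∉ l ↔ In a b c d x := by
  induction x using Nat.strong_induction_on with
  | _ x ih =>
    by_cases hx : x < 2 * l.sum + 2
    · exact h x hx
    · have hl : ∀ y, l.sum < y → y ∉ l := fun y hy h => by have := List.le_sum_of_mem h; omega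
      refine iff_of_true (hl x (by omega)) (Or.inr ?_)
      obtain ⟨y, rfl⟩ : ∃ y, x = l.sum + 1 + y := ⟨x - (l.sum + 1), by omega⟩
      have h1 := ((ih (l.sum + 1) (by omega)).mp (hl _ (by omega))).resolve_left (by omega)
      have h2 := ((ih y (by omega)).mp (hl _ (by omega))).resolve_left (by omega)
      have h3 := Nat.mod_le (a * (l.sum + 1) % b + a * y % b) b
      rw [← Nat.add_mod, ← mul_add] at h3
      rw [mul_add c]; omega

lemma prim : PrimrecPred fun l : List ℕ => ∃ t < W (2 * l.sum + 2), R t l := by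
  have hs : Primrec fun l : List ℕ => 2 * l.sum + 2 :=
    nat_add.comp (nat_mul.comp (const 2) ((list_foldr Primrec.id (const 0)
      (nat_add.comp (fst.comp snd) (snd.comp snd)).to₂).of_eq fun l => by
        rw [List.sum_eq_foldr]; rfl)) (const 2)
  have hp : Primrec₂ ((· ^ ·) : ℕ → ℕ → ℕ) := Primrec₂.unpaired'.1 Nat.Primrec.pow
  have hW : Primrec W := hp.comp (succ.comp (hp.comp (succ.comp (nat_mul.comp (nat_mul.comp
    (nat_mul.comp (const 3) (hp.comp Primrec.id Primrec.id)) (nat_add.comp Primrec.id (const 2)))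
    Primrec.id)) (const 2))) (const 2)
  have u1 : Primrec fun t : ℕ => t.unpair.1 := fst.comp unpair
  have u2 : Primrec fun t : ℕ => t.unpair.2 := snd.comp unpair
  have hm : PrimrecRel fun (l : List ℕ) (x : ℕ) => x ∈ l :=
    (PrimrecRel.exists_mem_list Primrec.eq).of_eq (by simp)
  have hI : PrimrecPred fun z : ℕ × ℕ × List ℕ => In z.2.1.unpair.1.unpair.1 z.2.1.unpair.1.unpair.2
      z.2.1.unpair.2.unpair.1 z.2.1.unpair.2.unpair.2 z.1 :=
    (Primrec.eq.comp fst (const 0)).or (nat_le.comp (nat_add.comp (nat_mod.comp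
      (nat_mul.comp (u1.comp (u1.comp (fst.comp snd))) fst) (u2.comp (u1.comp (fst.comp snd))))
      (u2.comp (u2.comp (fst.comp snd)))) (nat_mul.comp (u1.comp (u2.comp (fst.comp snd))) fst))
  have hM := hm.comp (snd.comp (snd (α := ℕ) (β := ℕ × List ℕ))) fst
  have hQ : PrimrecRel fun (x : ℕ) (y : ℕ × List ℕ) => (x ∉ y.2 ↔ In y.1.unpair.1.unpair.1
      y.1.unpair.1.unpair.2 y.1.unpair.2.unpair.1 y.1.unpair.2.unpair.2 x) :=
    ((hM.not.and hI).or (hM.and hI.not)).of_eq fun z => by by_cases h : z.1 ∈ z.2.2 <;> simp [h]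
  have hB : PrimrecRel fun (n : ℕ) (y : ℕ × List ℕ) => ∀ x < n, (x ∉ y.2 ↔ In y.1.unpair.1.unpair.1
      y.1.unpair.1.unpair.2 y.1.unpair.2.unpair.1 y.1.unpair.2.unpair.2 x) :=
    (hQ.forall_mem_list.comp (list_range.comp fst) snd).of_eq (by simp only [List.mem_range]; simp)
  have hR : PrimrecRel R :=
    (Primrec.eq.comp (u2.comp (u1.comp fst)) (const 0)).not.and
      ((Primrec.eq.comp (u1.comp (u2.comp fst)) (const 0)).not.and (hB.comp (hs.comp snd) Primrec.id))
  exact (hR.exists_mem_list.comp (list_range.comp (hW.comp hs)) Primrec.id).of_eq (by simp)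

theorem result : ComputablePred fun l : List ℕ => ∃ a b c d : ℕ, b ≠ 0 ∧ c ≠ 0 ∧
    ∀ x : ℕ, x ∉ l ↔ (x = 0 ∨ a * x % b + d ≤ c * x) := by
  refine prim.computablePred.of_eq fun l => ⟨?_, ?_⟩
  · rintro ⟨t, -, h1, h2, h3⟩
    exact ⟨_, _, _, _, h1, h2, ext _ _ _ _ l h3⟩
  · rintro ⟨a, b, c, d, hb, hc, h⟩
    simp only [← Nat.mod_mul_mod a _ b] at h
    obtain ⟨a', b', c', d', ⟨h1, h2, h3, h4⟩, h5, h6⟩ := bound (2 * l.sum + 2) (a % b) b c d hb hc
      (Nat.mod_lt _ (Nat.pos_of_ne_zero hb)) ⟨l.sum + 1, by omega, by omega, ((h _).mp fun h => by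
        have := List.le_sum_of_mem h; omega).resolve_left (by omega)⟩
    have h7 := Nat.factorial_pos (2 * l.sum + 2)
    refine ⟨Nat.pair (Nat.pair a' b') (Nat.pair c' d'), ?_, ?_⟩
    · have h8 := Nat.factorial_le_pow (2 * l.sum + 2)
      unfold W
      generalize hK : 2 * l.sum + 2 = K at *
      have h9 : b' * (K + 2) * K ≤ 3 * K ^ K * (K + 2) * K := by gcongr; omega
      have h10 : b' * (K + 2) ≤ b' * (K + 2) * K := Nat.le_mul_of_pos_right _ (by omega)
      have h11 : b' ≤ b' * (K + 2) := Nat.le_mul_of_pos_right _ (by omega)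
      generalize 3 * K ^ K * (K + 2) * K = Z at *
      have key : ∀ x y z, x ≤ z → y ≤ z → Nat.pair x y < (z + 1) ^ 2 := fun x y z hx hy =>
        (Nat.pair_lt_max_add_one_sq x y).trans_le (by gcongr; omega)
      exact key _ _ _ (key _ _ _ (by omega) (by omega)).le (key _ _ _ (by omega) (by omega)).le
    · simp only [R, Nat.unpair_pair]
      refine ⟨by omega, h5, fun x hx => (h x).trans ?_⟩
      rcases Nat.eq_zero_or_pos x with rfl | h0
      · simp [In]
      · exact or_congr_right (h6 x hx h0)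

end Pool.Agent.Results.MP_bd8ab5_nt.Decide
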